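import Pool.Agent.E8helper19.PM.Stm

/-! PM16: the indicator as an energy. -/

set_option autoImplicit false
open MeasureTheory Filter Topology Set
open scoped ContDiff ENNReal Real InnerProductSpace
open Pool.Agent.E8helper19.PM

namespace Pool.Agent.E8helper26.PM

noncomputable section

/-- the gradient as a function of the derivative -/
def Phi (L : E →L[ℝ] ℂ) : C3 := WithLp.toLp 2 fun j => L (EuclideanSpace.single j 1)

theorem Phi_cont : Continuous Phi := by
  unfold Phi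
  apply (PiLp.continuous_toLp 2 _).comp
  exact continuous_pi fun j => (ContinuousLinearMap.apply ℝ ℂ _).continuous

theorem gr_eq (f : E → ℂ) : gr f = Phi ∘ fderiv ℝ f := rfl

theorem Phi_zero : Phi 0 = 0 := by
  ext j
  simp [Phi]

theorem tst_memLp {Ω : Set E} {f : E → ℂ} (hf : Tst Ω f) (μ : Measure E)
    [IsFiniteMeasureOnCompacts μ] : MemLp f 2 μ ∧ MemLp (gr f) 2 μ := by
  refine ⟨hf.smooth.continuous.memLp_of_hasCompactSupport hf.cpt, ?_⟩
  have h1 : Continuous (fderiv ℝ f) := hf.smooth.continuous_fderiv (by simp)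
  have h2 : HasCompactSupport (fderiv ℝ f) := hf.cpt.fderiv (𝕜 := ℝ)
  rw [gr_eq]
  exact (Phi_cont.comp h1).memLp_of_hasCompactSupport (h2.comp_left Phi_zero)

theorem int_mul {α : Type*} [MeasurableSpace α] {μ : Measure α} {F : Type*}
    [NormedAddCommGroup F] {f g : α → F} (hf : MemLp f 2 μ) (hg : MemLp g 2 μ) :
    Integrable (fun x => ‖f x‖ * ‖g x‖) μ :=
  hf.norm.integrable_mul hg.norm

/-- the integrand -/
def b (k : ℝ) (p : ℂ) (gp : C3) (q : ℂ) (gq : C3) : ℂ :=
  ⟪gq, gp⟫_ℂ - ((k ^ 2 : ℝ) : ℂ) * ((starRingEnd ℂ) q * p)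

theorem b_int {α : Type*} [MeasurableSpace α] {μ : Measure α} (k : ℝ) {p q : α → ℂ}
    {gp gq : α → C3} (hp : MemLp p 2 μ) (hgp : MemLp gp 2 μ) (hq : MemLp q 2 μ)
    (hgq : MemLp gq 2 μ) : Integrable (fun x => b k (p x) (gp x) (q x) (gq x)) μ := by
  unfold b
  apply Integrable.sub
  · exact (int_mul hgq hgp).mono' (hgq.1.inner hgp.1)
      (Eventually.of_forall fun x => norm_inner_le_norm _ _)
  · apply Integrable.const_mul
    refine (int_mul hq hp).mono' ?_ (Eventually.of_forall fun x => ?_)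
    · exact (Complex.continuous_conj.comp_aestronglyMeasurable hq.1).mul hp.1
    · simp

theorem b_norm (k : ℝ) (p : ℂ) (gp : C3) (q : ℂ) (gq : C3) (t : ℝ) (ht : 0 < t) :
    ‖b k p gp q gq‖ ≤ (1 + k ^ 2) / 2 *
      (t * (‖q‖ ^ 2 + ‖gq‖ ^ 2) + (1 / t) * (‖p‖ ^ 2 + ‖gp‖ ^ 2)) := by
  have key : ∀ a c : ℝ, a * c ≤ (t * a ^ 2 + (1 / t) * c ^ 2) / 2 := by
    intro a c
    have h : 0 ≤ (t * a - c) ^ 2 / t := by positivity
    have e : (t * a - c) ^ 2 / t = t * a ^ 2 + (1 / t) * c ^ 2 - 2 * (a * c) := by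
      field_simp
      ring
    linarith
  have h1 : ‖⟪gq, gp⟫_ℂ‖ ≤ ‖gq‖ * ‖gp‖ := norm_inner_le_norm _ _
  have h2 : ‖((k ^ 2 : ℝ) : ℂ) * ((starRingEnd ℂ) q * p)‖ = k ^ 2 * (‖q‖ * ‖p‖) := by
    rw [norm_mul, norm_mul, Complex.norm_real, Real.norm_of_nonneg (sq_nonneg k)]
    simp
  have h3 := key ‖gq‖ ‖gp‖
  have h4 := key ‖q‖ ‖p‖
  have h5 := norm_sub_le ⟪gq, gp⟫_ℂ (((k ^ 2 : ℝ) : ℂ) * ((starRingEnd ℂ) q * p))
  have h6 : 0 ≤ k ^ 2 := sq_nonneg k
  have h7 : 0 ≤ t * ‖q‖ ^ 2 + (1 / t) * ‖p‖ ^ 2 := by positivity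
  have h8 : 0 ≤ t * ‖gq‖ ^ 2 + (1 / t) * ‖gp‖ ^ 2 := by positivity
  have h9 := mul_nonneg h6 h8
  have h10 := mul_le_mul_of_nonneg_left h4 h6
  unfold b
  nlinarith

theorem dense {α : Type*} [MeasurableSpace α] {μ : Measure α} (k : ℝ) {p w : α → ℂ}
    {gp g : α → C3} (hp : MemLp p 2 μ) (hgp : MemLp gp 2 μ) (hw : MemLp w 2 μ)
    (hg : MemLp g 2 μ)
    (hlim : ∀ ε : ℝ, 0 < ε → ∃ (f : α → ℂ) (gf : α → C3), MemLp f 2 μ ∧ MemLp gf 2 μ ∧
      ∫ x, (‖w x - f x‖ ^ 2 + ‖g x - gf x‖ ^ 2) ∂μ < ε ∧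
      ∫ x, b k (p x) (gp x) (f x) (gf x) ∂μ = 0) :
    ∫ x, b k (p x) (gp x) (w x) (g x) ∂μ = 0 := by
  rw [← norm_le_zero_iff]
  apply le_of_forall_pos_le_add
  intro δ hδ
  rw [zero_add]
  set M : ℝ := ∫ x, (‖p x‖ ^ 2 + ‖gp x‖ ^ 2) ∂μ with hM
  have hM0 : 0 ≤ M := integral_nonneg fun x => by positivity
  have hk : 0 < 1 + k ^ 2 := by positivity
  set t : ℝ := (1 + k ^ 2) * (M + 1) / δ with ht
  have ht0 : 0 < t := by positivity
  obtain ⟨f, gf, hf, hgf, hlt, hz⟩ := hlim (δ / ((1 + k ^ 2) * t)) (by positivity)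
  have e1 : ∫ x, b k (p x) (gp x) (w x) (g x) ∂μ =
      ∫ x, b k (p x) (gp x) (w x - f x) (g x - gf x) ∂μ := by
    have e2 : (fun x => b k (p x) (gp x) (w x - f x) (g x - gf x)) =
        fun x => b k (p x) (gp x) (w x) (g x) - b k (p x) (gp x) (f x) (gf x) := by
      funext x
      simp only [b, inner_sub_left, map_sub]
      ring
    rw [e2, integral_sub (b_int k hp hgp hw hg) (b_int k hp hgp hf hgf), hz, sub_zero]
  rw [e1]
  have i1 : Integrable (fun x => ‖w x - f x‖ ^ 2 + ‖g x - gf x‖ ^ 2) μ :=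
    ((hw.sub hf).integrable_norm_pow (by norm_num)).add
      ((hg.sub hgf).integrable_norm_pow (by norm_num))
  have i2 : Integrable (fun x => ‖p x‖ ^ 2 + ‖gp x‖ ^ 2) μ :=
    (hp.integrable_norm_pow (by norm_num)).add (hgp.integrable_norm_pow (by norm_num))
  calc ‖∫ x, b k (p x) (gp x) (w x - f x) (g x - gf x) ∂μ‖
      ≤ ∫ x, ‖b k (p x) (gp x) (w x - f x) (g x - gf x)‖ ∂μ := norm_integral_le_integral_norm _
    _ ≤ ∫ x, (1 + k ^ 2) / 2 * (t * (‖w x - f x‖ ^ 2 + ‖g x - gf x‖ ^ 2) +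
          (1 / t) * (‖p x‖ ^ 2 + ‖gp x‖ ^ 2)) ∂μ := by
        apply integral_mono (b_int k hp hgp (hw.sub hf) (hg.sub hgf)).norm
        · exact ((i1.const_mul t).add (i2.const_mul (1 / t))).const_mul _
        · intro x
          exact b_norm k _ _ _ _ t ht0
    _ = (1 + k ^ 2) / 2 * (t * ∫ x, (‖w x - f x‖ ^ 2 + ‖g x - gf x‖ ^ 2) ∂μ + (1 / t) * M) := by
        rw [integral_const_mul, integral_add (i1.const_mul t) (i2.const_mul (1 / t)),
          integral_const_mul, integral_const_mul]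
    _ ≤ (1 + k ^ 2) / 2 * (t * (δ / ((1 + k ^ 2) * t)) + (1 / t) * M) := by gcongr
    _ ≤ δ := by
        have h1 : (1 + k ^ 2) / 2 * (t * (δ / ((1 + k ^ 2) * t))) = δ / 2 := by
          field_simp
        have h2 : (1 + k ^ 2) / 2 * ((1 / t) * M) = δ / 2 * (M / (M + 1)) := by
          rw [ht]
          field_simp
        have h3 : M / (M + 1) ≤ 1 := by
          rw [div_le_one (by positivity)]
          linarith
        rw [mul_add, h1, h2]
        nlinarith

theorem b_self (k : ℝ) (q : ℂ) (gq : C3) :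
    b k q gq q gq = ((‖gq‖ ^ 2 - k ^ 2 * ‖q‖ ^ 2 : ℝ) : ℂ) := by
  unfold b
  rw [inner_self_eq_norm_sq_to_K, Complex.conj_mul']
  push_cast
  rfl

theorem b_conj (k : ℝ) (p : ℂ) (gp : C3) (q : ℂ) (gq : C3) :
    (starRingEnd ℂ) (b k p gp q gq) = b k q gq p gp := by
  unfold b
  rw [map_sub, inner_conj_symm, map_mul, map_mul, Complex.conj_conj, Complex.conj_ofReal]
  ring

theorem b_add (k : ℝ) (p p' : ℂ) (gp gp' : C3) (q : ℂ) (gq : C3) :
    b k (p + p') (gp + gp') q gq = b k p gp q gq + b k p' gp' q gq := by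
  unfold b
  rw [inner_add_right]
  ring

theorem helm_memLp {k : ℝ} {Ω : Set E} {v : E → ℂ} (hΩ : IsOpen Ω) (hv : Helm k Ω v) :
    MemLp v 2 (volume.restrict Ω) ∧ MemLp (gr v) 2 (volume.restrict Ω) := by
  have c1 : ContinuousOn v Ω := hv.smooth.continuousOn
  have c2 : ContinuousOn (gr v) Ω := by
    rw [gr_eq]
    exact Phi_cont.comp_continuousOn (hv.smooth.continuousOn_fderiv_of_isOpen hΩ (by simp))
  have m1 := c1.aestronglyMeasurable (μ := volume) hΩ.measurableSet
  have m2 := c2.aestronglyMeasurable (μ := volume) hΩ.measurableSet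
  constructor
  · rw [memLp_two_iff_integrable_sq_norm m1]
    refine hv.fin.mono' (m1.norm.pow 2) (Eventually.of_forall fun y => ?_)
    rw [Real.norm_of_nonneg (by positivity)]
    nlinarith [sq_nonneg ‖gr v y‖]
  · rw [memLp_two_iff_integrable_sq_norm m2]
    refine hv.fin.mono' (m2.norm.pow 2) (Eventually.of_forall fun y => ?_)
    rw [Real.norm_of_nonneg (by positivity)]
    nlinarith [sq_nonneg ‖v y‖]

theorem t_ID (h : S_NULL) : S_ID := by
  intro k Ω D v u gu hΩ hbd hD hDΩ hv hu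
  have hDo : IsOpen D := by
    obtain ⟨ρ, hρ, rfl, -⟩ := hD
    exact isOpen_lt hρ.continuous continuous_const
  have hnull : volume (frontier D) = 0 := h.1 D hD
  obtain ⟨m1, m2⟩ := helm_memLp hΩ hv
  have hDs : D ⊆ Ω := subset_closure.trans hDΩ
  have vX : MemLp v 2 (volume.restrict (Ω \ closure D)) :=
    m1.mono_measure (Measure.restrict_mono sdiff_subset le_rfl)
  have gX : MemLp (gr v) 2 (volume.restrict (Ω \ closure D)) :=
    m2.mono_measure (Measure.restrict_mono sdiff_subset le_rfl)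
  have vD : MemLp v 2 (volume.restrict D) :=
    m1.mono_measure (Measure.restrict_mono hDs le_rfl)
  have gD : MemLp (gr v) 2 (volume.restrict D) :=
    m2.mono_measure (Measure.restrict_mono hDs le_rfl)
  have hw := hu.van.w2
  have hg := hu.van.g2
  have huX : MemLp u 2 (volume.restrict (Ω \ closure D)) := by
    have h1 := hw.add vX
    have h2 : (fun y => u y - v y) + v = u := by
      funext y
      simp
    rwa [h2] at h1
  have hguX : MemLp gu 2 (volume.restrict (Ω \ closure D)) := by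
    have h1 := hg.add gX
    have h2 : (fun y => gu y - gr v y) + gr v = gu := by
      funext y
      simp
    rwa [h2] at h1
  -- the weak equation tested with `w`
  have claim : ∫ y in Ω \ closure D, b k (u y) (gu y) (u y - v y) (gu y - gr v y) = 0 := by
    apply dense k huX hguX hw hg
    intro ε hε
    obtain ⟨f, hf, hlt⟩ := hu.van.lim ε hε
    obtain ⟨a1, a2⟩ := tst_memLp hf (volume.restrict (Ω \ closure D))
    exact ⟨f, gr f, a1, a2, hlt, hu.eq f hf⟩
  have e1 : ∫ y in Ω \ closure D, b k (u y) (gu y) (u y - v y) (gu y - gr v y) =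
      (∫ y in Ω \ closure D, b k (u y - v y) (gu y - gr v y) (u y - v y) (gu y - gr v y)) +
      ∫ y in Ω \ closure D, b k (v y) (gr v y) (u y - v y) (gu y - gr v y) := by
    rw [← integral_add (b_int k hw hg hw hg) (b_int k vX gX hw hg)]
    congr 1
    funext y
    rw [← b_add, sub_add_cancel, sub_add_cancel]
  have e2 : ∫ y in Ω \ closure D, b k (u y) (gu y) (v y) (gr v y) =
      (∫ y in Ω \ closure D, b k (u y - v y) (gu y - gr v y) (v y) (gr v y)) +
      ∫ y in Ω \ closure D, b k (v y) (gr v y) (v y) (gr v y) := by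
    rw [← integral_add (b_int k hw hg vX gX) (b_int k vX gX vX gX)]
    congr 1
    funext y
    rw [← b_add, sub_add_cancel, sub_add_cancel]
  have e3 : ∫ y in Ω \ closure D, b k (u y - v y) (gu y - gr v y) (v y) (gr v y) =
      (starRingEnd ℂ)
        (∫ y in Ω \ closure D, b k (v y) (gr v y) (u y - v y) (gu y - gr v y)) := by
    rw [← integral_conj]
    congr 1
    funext y
    rw [b_conj]
  have e4 : ∫ y in Ω \ closure D, b k (u y - v y) (gu y - gr v y) (u y - v y) (gu y - gr v y) =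
      ((∫ y in Ω \ closure D, (‖gu y - gr v y‖ ^ 2 - k ^ 2 * ‖u y - v y‖ ^ 2) : ℝ) : ℂ) := by
    rw [← integral_complex_ofReal]
    congr 1
    funext y
    exact b_self _ _ _
  have e5 : ∫ y in D, b k (v y) (gr v y) (v y) (gr v y) =
      ((∫ y in D, (‖gr v y‖ ^ 2 - k ^ 2 * ‖v y‖ ^ 2) : ℝ) : ℂ) := by
    rw [← integral_complex_ofReal]
    congr 1
    funext y
    exact b_self _ _ _
  have e6 : ∫ y in Ω, b k (v y) (gr v y) (v y) (gr v y) =
      (∫ y in D, b k (v y) (gr v y) (v y) (gr v y)) +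
      ∫ y in Ω \ closure D, b k (v y) (gr v y) (v y) (gr v y) := by
    have i0 : IntegrableOn (fun y => b k (v y) (gr v y) (v y) (gr v y)) Ω :=
      b_int k m1 m2 m1 m2
    have h1 : ∫ y in Ω \ closure D, b k (v y) (gr v y) (v y) (gr v y) =
        ∫ y in Ω \ D, b k (v y) (gr v y) (v y) (gr v y) := by
      apply setIntegral_congr_set
      rw [ae_eq_set]
      constructor
      · have : (Ω \ closure D) \ (Ω \ D) = ∅ := by
          ext y
          simp only [Set.mem_sdiff, mem_empty_iff_false, iff_false]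
          rintro ⟨⟨h1, h2⟩, h3⟩
          exact h3 ⟨h1, fun h4 => h2 (subset_closure h4)⟩
        rw [this, measure_empty]
      · refine measure_mono_null ?_ hnull
        rintro y ⟨⟨h1, h2⟩, h3⟩
        rw [hDo.frontier_eq]
        refine ⟨?_, h2⟩
        by_contra h4
        exact h3 ⟨h1, h4⟩
    rw [h1, ← setIntegral_union disjoint_sdiff_right (hΩ.measurableSet.diff hDo.measurableSet)
      (i0.mono_set hDs) (i0.mono_set sdiff_subset), union_sdiff_cancel hDs]
  have e7 : Ind k Ω D v u gu = (∫ y in Ω, b k (v y) (gr v y) (v y) (gr v y)) -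
      ∫ y in Ω \ closure D, b k (u y) (gu y) (v y) (gr v y) := rfl
  rw [e7, e6, e2, e3, e5]
  rw [e1, e4] at claim
  have e8 := eq_neg_of_add_eq_zero_right claim
  rw [e8, map_neg, Complex.conj_ofReal]
  push_cast
  ring

end

end Pool.Agent.E8helper26.PM
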